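import Mathlib
import Pool.Agent.H18.Affine8

namespace Pool.Agent.Results.MP_46a474_nt.Counter

lemma irr (F : Type) [Field F] :
    Irreducible (MvPolynomial.X 0 + MvPolynomial.X 1 ^ 8 : MvPolynomial (Fin 2) F) := by
  rw [← MulEquiv.irreducible_iff (MvPolynomial.finSuccEquiv F 1).toMulEquiv]
  have e : (MvPolynomial.finSuccEquiv F 1).toMulEquiv
      (MvPolynomial.X 0 + MvPolynomial.X 1 ^ 8 : MvPolynomial (Fin 2) F)
      = Polynomial.X - Polynomial.C (-(MvPolynomial.X 0 ^ 8)) := by
    show (MvPolynomial.finSuccEquiv F 1) (MvPolynomial.X 0 + MvPolynomial.X (Fin.succ 0) ^ 8) = _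
    rw [map_add, map_pow, MvPolynomial.finSuccEquiv_X_zero, MvPolynomial.finSuccEquiv_X_succ]
    simp
  rw [e]
  exact Polynomial.irreducible_X_sub_C _

lemma deg (F : Type) [Field F] :
    (MvPolynomial.X 0 + MvPolynomial.X 1 ^ 8 : MvPolynomial (Fin 2) F).totalDegree = 8 := by
  rw [MvPolynomial.totalDegree_add_eq_right_of_totalDegree_lt]
  · rw [MvPolynomial.totalDegree_X_pow]
  · rw [MvPolynomial.totalDegree_X_pow, MvPolynomial.totalDegree_X]
    norm_num

theorem result :
    ¬ ∀ (F : Type) [Field F] [Fintype F] (f : MvPolynomial (Fin 2) F),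
      Irreducible f → 1 ≤ f.totalDegree → f.totalDegree ^ 4 < Fintype.card F →
      ∃ a b : F, Irreducible
        (MvPolynomial.aeval
          ![Polynomial.C a * Polynomial.X + Polynomial.C b, Polynomial.X] f : Polynomial F) := by
  intro h
  have : Fintype (GaloisField 2 13) := Fintype.ofFinite _
  have hc : Fintype.card (GaloisField 2 13) = 2 ^ 13 := by
    rw [← Nat.card_eq_fintype_card]
    exact GaloisField.card 2 13 (by norm_num)
  obtain ⟨a, b, hab⟩ := h (GaloisField 2 13) _ (irr _) (by rw [deg]; norm_num)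
    (by rw [deg, hc]; norm_num)
  apply Pool.Agent.H18.Affine8.not_irreducible a b
  simpa using hab

end Pool.Agent.Results.MP_46a474_nt.Counter
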